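import Pool.Agent.H16.MO.MEQN
import Pool.Agent.H11.MO.STEPA
import Pool.Agent.H13.MO.AMOM
import Pool.Agent.H21.MO.AENC
import Pool.Agent.H24.MO.A_HV
import Pool.Agent.H36.MO.A_FIN
import Pool.Agent.H4.MO.MAINA
import Pool.Agent.H42.MO.A_CORE
import Pool.Agent.H42.MO.A_SEL
import Pool.Agent.H58.MO.AFAR
import Pool.Agent.H58.MO.AIND
import Pool.Agent.H58.MO.ARES
import Pool.Agent.H63.MO.APAR
import Pool.Agent.H68.MO.A_EXI
import Pool.Agent.H85.MO.CNTA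

/-! # MP_c62aed_lc, monotone circuits of any depth for k-SAT: assembly (helper51) -/

namespace Pool.Agent.H51.MO

theorem stepA : S_ASTEP := H11.MO.pf_ASTEP (Pool.Agent.H51.MO.pf_AHV H13.MO.pf_AMOM)

theorem mainA : S_AMAIN :=
  H4.MO.pf_AMAIN H58.MO.pf_ARES H85.MO.pf_ACNT (H42.MO.pf_ASEL stepA) H68.MO.pf_AEXI
    H58.MO.pf_AIND

theorem statementA : StatementA :=
  H36.MO.pf_AFIN (H42.MO.pf_ACORE mainA stepA H21.MO.pf_AENC H16.MO.pf_MEQN) H58.MO.pf_AFAR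
    H63.MO.pf_APAR

end Pool.Agent.H51.MO
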