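import Pool.Agent.H78.MO.MPATH

/-! Row MPHA: one phase. -/

namespace Pool.Agent.H51.MO

open Finset
open Pool.Agent.H1.LP (Clause)

theorem sum_split {α : Type} (A : Finset α) (q : α → Prop) [DecidablePred q] (P : α → Prop)
    [DecidablePred P] (s : α → ℝ) :
    ∑ a ∈ A.filter P, s a =
      ∑ a ∈ (A.filter q).filter P, s a + ∑ a ∈ (A.filter (fun a => ¬ q a)).filter P, s a := by
  rw [Finset.sum_filter P, Finset.sum_filter P s (s := A.filter q),
    Finset.sum_filter P s (s := A.filter (fun a => ¬ q a))]
  exact (Finset.sum_filter_add_sum_filter_not A q _).symm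

theorem pf_MPHA (hE : S_MEQN) : S_MPHA := by
  classical
  intro X Y _ _ n K ka FY FX hka hlow _ g out D p
  have hlow' : ∀ (A : Finset Y) (B : Finset X) (w : ℕ),
      -(ka * Real.sqrt ((A.card : ℝ) * B.card)) ≤
        ∑ a ∈ A.filter (fun a => val g (FY a) w), ∑ x ∈ B.filter (fun x => ¬ val g (FX x) w),
          K a x := by
    intro A B w
    refine le_trans ?_ (hlow _ _)
    apply neg_le_neg
    apply mul_le_mul_of_nonneg_left _ hka
    apply Real.sqrt_le_sqrt
    have h1 : ((A.filter (fun a => val g (FY a) w)).card : ℝ) ≤ A.card := by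
      exact_mod_cast card_filter_le _ _
    have h2 : ((B.filter (fun x => ¬ val g (FX x) w)).card : ℝ) ≤ B.card := by
      exact_mod_cast card_filter_le _ _
    gcongr
  have hbase : ∀ (p v : ℕ) (A : Finset Y) (B : Finset X), v ≤ out → dep g v ≤ D →
      (∀ a ∈ A, val g (FY a) v) → (∀ x ∈ B, ¬ val g (FX x) v) →
      ∑ a ∈ A, ∑ x ∈ B, K a x ≤
        ∑ w ∈ (range (out + 1)).filter (fun w => dep g w ≤ D),
          ∑ a ∈ A.filter (fun a => val g (FY a) w), ∑ x ∈ B.filter (fun x => ¬ val g (FX x) w),
            K a x +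
        ((out : ℝ) + 2) * (ka * Real.sqrt (2 ^ p * ((A.card : ℝ) * B.card))) := by
    intro p v A B hv hd hA hB
    have hvW : v ∈ (range (out + 1)).filter (fun w => dep g w ≤ D) :=
      mem_filter.2 ⟨mem_range.2 (by omega), hd⟩
    rw [← Finset.sum_erase_add _ _ hvW]
    have e1 : A.filter (fun a => val g (FY a) v) = A := filter_true_of_mem hA
    have e2 : B.filter (fun x => ¬ val g (FX x) v) = B := filter_true_of_mem hB
    rw [e1, e2]
    have h1 : -((out : ℝ) * (ka * Real.sqrt ((A.card : ℝ) * B.card))) ≤
        ∑ w ∈ ((range (out + 1)).filter (fun w => dep g w ≤ D)).erase v,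
          ∑ a ∈ A.filter (fun a => val g (FY a) w), ∑ x ∈ B.filter (fun x => ¬ val g (FX x) w),
            K a x := by
      have h2 : ((((range (out + 1)).filter (fun w => dep g w ≤ D)).erase v).card : ℝ) ≤ out := by
        have h3 : (((range (out + 1)).filter (fun w => dep g w ≤ D)).erase v).card ≤ out := by
          rw [card_erase_of_mem hvW]
          have := card_filter_le (range (out + 1)) (fun w => dep g w ≤ D)
          rw [card_range] at this
          omega
        exact_mod_cast h3
      have h4 := Finset.card_nsmul_le_sum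
        (((range (out + 1)).filter (fun w => dep g w ≤ D)).erase v)
        (fun w => ∑ a ∈ A.filter (fun a => val g (FY a) w),
          ∑ x ∈ B.filter (fun x => ¬ val g (FX x) w), K a x)
        (-(ka * Real.sqrt ((A.card : ℝ) * B.card))) (fun w _ => hlow' A B w)
      rw [nsmul_eq_mul] at h4
      refine le_trans ?_ h4
      have h5 : 0 ≤ ka * Real.sqrt ((A.card : ℝ) * B.card) := by positivity
      nlinarith
    have h6 : Real.sqrt ((A.card : ℝ) * B.card) ≤
        Real.sqrt (2 ^ p * ((A.card : ℝ) * B.card)) := by
      apply Real.sqrt_le_sqrt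
      have h7 : (1 : ℝ) ≤ 2 ^ p := one_le_pow₀ (by norm_num)
      have h8 : 0 ≤ (A.card : ℝ) * B.card := by positivity
      nlinarith
    have h9 : (out : ℝ) * (ka * Real.sqrt ((A.card : ℝ) * B.card)) ≤
        ((out : ℝ) + 2) * (ka * Real.sqrt (2 ^ p * ((A.card : ℝ) * B.card))) := by
      have h10 := mul_le_mul_of_nonneg_left h6 hka
      have h11 : 0 ≤ ka * Real.sqrt ((A.card : ℝ) * B.card) := by positivity
      have h12 : (0 : ℝ) ≤ out := Nat.cast_nonneg _
      nlinarith
    linarith
  induction p with
  | zero =>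
    intro v A B hv hd hA hB
    exact hbase 0 v A B hv (by omega) hA hB
  | succ p ih =>
    intro v A B hv hd hA hB
    by_cases hdD : dep g v ≤ D
    · exact hbase (p + 1) v A B hv hdD hA hB
    obtain ⟨hcst, hinp, hand, hor, -, -⟩ := hE n g v
    have hpow : (2 : ℝ) ^ (p + 1) = 2 ^ p + 2 ^ p := by ring
    cases hg : g v with
    | cst b =>
      obtain ⟨-, h2, -⟩ := hcst b hg
      omega
    | inp C =>
      obtain ⟨-, h2, -⟩ := hinp C hg
      omega
    | and j l =>
      obtain ⟨h1, h2, -⟩ := hand j l hg
      have hj := j.2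
      have hl := l.2
      have hdj : dep g j.1 ≤ D + p := by
        have := le_max_left (dep g j.1) (dep g l.1)
        omega
      have hdl : dep g l.1 ≤ D + p := by
        have := le_max_right (dep g j.1) (dep g l.1)
        omega
      have i1 := ih j.1 A (B.filter (fun x => ¬ val g (FX x) j.1)) (by omega) hdj
        (fun a ha => ((h1 _).1 (hA a ha)).1) (fun x hx => (mem_filter.1 hx).2)
      have i2 := ih l.1 A (B.filter (fun x => ¬ ¬ val g (FX x) j.1)) (by omega) hdl
        (fun a ha => ((h1 _).1 (hA a ha)).2)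
        (fun x hx hl => hB x (mem_filter.1 hx).1
          ((h1 _).2 ⟨not_not.1 (mem_filter.1 hx).2, hl⟩))
      have e1 : ∑ a ∈ A, ∑ x ∈ B, K a x =
          ∑ a ∈ A, ∑ x ∈ B.filter (fun x => ¬ val g (FX x) j.1), K a x +
            ∑ a ∈ A, ∑ x ∈ B.filter (fun x => ¬ ¬ val g (FX x) j.1), K a x := by
        rw [← Finset.sum_add_distrib]
        exact Finset.sum_congr rfl fun a _ => (Finset.sum_filter_add_sum_filter_not B _ _).symm
      have e2 : ((B.filter (fun x => ¬ val g (FX x) j.1)).card : ℝ) +
          (B.filter (fun x => ¬ ¬ val g (FX x) j.1)).card = B.card := by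
        exact_mod_cast Finset.card_filter_add_card_filter_not (s := B)
          (fun x => ¬ val g (FX x) j.1)
      have e3 : ∑ w ∈ (range (out + 1)).filter (fun w => dep g w ≤ D),
          ∑ a ∈ A.filter (fun a => val g (FY a) w), ∑ x ∈ B.filter (fun x => ¬ val g (FX x) w),
            K a x =
          ∑ w ∈ (range (out + 1)).filter (fun w => dep g w ≤ D),
            ∑ a ∈ A.filter (fun a => val g (FY a) w),
              ∑ x ∈ (B.filter (fun x => ¬ val g (FX x) j.1)).filter
                (fun x => ¬ val g (FX x) w), K a x +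
          ∑ w ∈ (range (out + 1)).filter (fun w => dep g w ≤ D),
            ∑ a ∈ A.filter (fun a => val g (FY a) w),
              ∑ x ∈ (B.filter (fun x => ¬ ¬ val g (FX x) j.1)).filter
                (fun x => ¬ val g (FX x) w), K a x := by
        rw [← Finset.sum_add_distrib]
        refine Finset.sum_congr rfl fun w _ => ?_
        rw [← Finset.sum_add_distrib]
        exact Finset.sum_congr rfl fun a _ => sum_split B _ _ _
      have i3 := H78.MO.sqrt_add_le (2 ^ p) (2 ^ p)
        (B.filter (fun x => ¬ val g (FX x) j.1)).card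
        (B.filter (fun x => ¬ ¬ val g (FX x) j.1)).card A.card (by positivity) (by positivity)
        (by positivity) (by positivity) (by positivity)
      rw [e2] at i3
      rw [mul_comm _ (A.card : ℝ), mul_comm _ (A.card : ℝ), mul_comm _ (A.card : ℝ)] at i3
      have i4 : ((out : ℝ) + 2) * (ka * Real.sqrt (2 ^ p * ((A.card : ℝ) *
            (B.filter (fun x => ¬ val g (FX x) j.1)).card))) +
          ((out : ℝ) + 2) * (ka * Real.sqrt (2 ^ p * ((A.card : ℝ) *
            (B.filter (fun x => ¬ ¬ val g (FX x) j.1)).card))) ≤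
          ((out : ℝ) + 2) * (ka * Real.sqrt (2 ^ (p + 1) * ((A.card : ℝ) * B.card))) := by
        rw [hpow, ← mul_add, ← mul_add]
        apply mul_le_mul_of_nonneg_left _ (by positivity)
        exact mul_le_mul_of_nonneg_left i3 hka
      rw [e1, e3]
      linarith
    | or j l =>
      obtain ⟨h1, h2, -⟩ := hor j l hg
      have hj := j.2
      have hl := l.2
      have hdj : dep g j.1 ≤ D + p := by
        have := le_max_left (dep g j.1) (dep g l.1)
        omega
      have hdl : dep g l.1 ≤ D + p := by
        have := le_max_right (dep g j.1) (dep g l.1)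
        omega
      have i1 := ih j.1 (A.filter (fun a => val g (FY a) j.1)) B (by omega) hdj
        (fun a ha => (mem_filter.1 ha).2) (fun x hx hj => hB x hx ((h1 _).2 (Or.inl hj)))
      have i2 := ih l.1 (A.filter (fun a => ¬ val g (FY a) j.1)) B (by omega) hdl
        (fun a ha => ((h1 _).1 (hA a (mem_filter.1 ha).1)).resolve_left (mem_filter.1 ha).2)
        (fun x hx hl => hB x hx ((h1 _).2 (Or.inr hl)))
      have e1 : ∑ a ∈ A, ∑ x ∈ B, K a x =
          ∑ a ∈ A.filter (fun a => val g (FY a) j.1), ∑ x ∈ B, K a x +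
            ∑ a ∈ A.filter (fun a => ¬ val g (FY a) j.1), ∑ x ∈ B, K a x :=
        (Finset.sum_filter_add_sum_filter_not A _ _).symm
      have e2 : ((A.filter (fun a => val g (FY a) j.1)).card : ℝ) +
          (A.filter (fun a => ¬ val g (FY a) j.1)).card = A.card := by
        exact_mod_cast Finset.card_filter_add_card_filter_not (s := A)
          (fun a => val g (FY a) j.1)
      have e3 : ∑ w ∈ (range (out + 1)).filter (fun w => dep g w ≤ D),
          ∑ a ∈ A.filter (fun a => val g (FY a) w), ∑ x ∈ B.filter (fun x => ¬ val g (FX x) w),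
            K a x =
          ∑ w ∈ (range (out + 1)).filter (fun w => dep g w ≤ D),
            ∑ a ∈ (A.filter (fun a => val g (FY a) j.1)).filter (fun a => val g (FY a) w),
              ∑ x ∈ B.filter (fun x => ¬ val g (FX x) w), K a x +
          ∑ w ∈ (range (out + 1)).filter (fun w => dep g w ≤ D),
            ∑ a ∈ (A.filter (fun a => ¬ val g (FY a) j.1)).filter (fun a => val g (FY a) w),
              ∑ x ∈ B.filter (fun x => ¬ val g (FX x) w), K a x := by
        rw [← Finset.sum_add_distrib]
        exact Finset.sum_congr rfl fun w _ => sum_split A _ _ _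
      have i3 := H78.MO.sqrt_add_le (2 ^ p) (2 ^ p)
        (A.filter (fun a => val g (FY a) j.1)).card
        (A.filter (fun a => ¬ val g (FY a) j.1)).card B.card (by positivity) (by positivity)
        (by positivity) (by positivity) (by positivity)
      rw [e2] at i3
      have i4 : ((out : ℝ) + 2) * (ka * Real.sqrt (2 ^ p *
            (((A.filter (fun a => val g (FY a) j.1)).card : ℝ) * B.card))) +
          ((out : ℝ) + 2) * (ka * Real.sqrt (2 ^ p *
            (((A.filter (fun a => ¬ val g (FY a) j.1)).card : ℝ) * B.card))) ≤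
          ((out : ℝ) + 2) * (ka * Real.sqrt (2 ^ (p + 1) * ((A.card : ℝ) * B.card))) := by
        rw [hpow, ← mul_add, ← mul_add]
        apply mul_le_mul_of_nonneg_left _ (by positivity)
        exact mul_le_mul_of_nonneg_left i3 hka
      rw [e1, e3]
      linarith

end Pool.Agent.H51.MO
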