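import Pool.Agent.H1.LP.Asm
import Pool.Agent.H96.KX.BASEL
import Pool.Agent.H86.KX.PDP
import Pool.Agent.H63.KX.BIP
import Pool.Agent.H49.KX3.RHS3
import Pool.Agent.H77.KX.BIZ
import Pool.Agent.H77.KX.MAS
import Pool.Agent.H77.KX.EXP3
import Pool.Agent.H58.KX.FRM
import Pool.Agent.H58.KX.NPR
import Pool.Agent.H58.KX.PARM
import Pool.Agent.H78.KX.HASH
import Pool.Agent.H78.KX.JUN
import Pool.Agent.H91.KX.HVY
import Pool.Agent.H11.KX.KAP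
import Pool.Agent.H11.KX.X3
import Pool.Agent.H45.KX.ONEC
import Pool.Agent.H39.KX.PDA
import Pool.Agent.H39.KX.FRM3
import Pool.Agent.H35.KX.IDX
import Pool.Agent.H37.KX.PARM3
import Pool.Agent.H16.MO.MEQN
import Pool.Agent.H78.MO.MPATH
import Pool.Agent.H78.MO.MCORE
import Pool.Agent.H51.MO.MPHA
import Pool.Agent.H58.MO.MABS
import Pool.Agent.H58.MO.MCLN
import Pool.Agent.H58.MO.MPAD
import Pool.Agent.H74.MO.MCORE3
import Pool.Agent.H13.MO.MFIN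
import Pool.Agent.H52.MO.MFIN3
import Pool.Agent.H26.MO.MLIM

/-! # MP_c62aed_lc, monotone circuits for k-SAT, size and depth: assembly (helper51) -/

namespace Pool.Agent.H51.MO

open Pool.Agent.H96.KX

theorem kapM : S_KAP := H11.KX.pf_KAP (H78.KX.pf_JUN H45.KX.pf_ONEC) H91.KX.pf_HVY

theorem bipM : S_BIP := H63.KX.pf_BIP kapM

theorem bizM : S_BIZ := H77.KX.pf_BIZ kapM

theorem mabsM : S_MABS :=
  H58.MO.pf_MABS H16.MO.pf_MEQN (H78.MO.pf_MPATH H16.MO.pf_MEQN) (pf_MPHA H16.MO.pf_MEQN)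

theorem mcoreM : S_MCORE :=
  H78.MO.pf_MCORE H78.KX.pf_HASH bipM bizM H77.KX.pf_MAS H39.KX.pf_PDA H86.KX.pf_PDP mabsM
    H58.KX.pf_NPR H58.KX.pf_FRM basel H2.LP.loc H88.LP.enc

theorem mcore3M : S_MCORE3 :=
  H74.MO.pf_MCORE3 H35.KX.pf_IDX bipM bizM H77.KX.pf_MAS H39.KX.pf_PDA H86.KX.pf_PDP mabsM
    H39.KX.pf_FRM3 H2.LP.loc

theorem statementB : StatementB :=
  H26.MO.pf_MLIM (H58.MO.pf_MPAD H16.MO.pf_MEQN) (H58.MO.pf_MCLN H16.MO.pf_MEQN)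
    (H13.MO.pf_MFIN mcoreM H58.KX.pf_PARM)
    (H52.MO.pf_MFIN3 (H11.KX.pf_X3 H77.KX.pf_EXP3 H49.KX3.pf_RHS3) mcore3M H37.KX.pf_PARM3)

end Pool.Agent.H51.MO
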