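import Pool.Agent.H1.LP.Stmt

/-!
# SETH for monotone circuits: the statement (helper51, MP_c62aed_lc)

The input of the circuit is a CNF formula, given by one bit for each possible clause.  The circuit
is monotone (gates AND and OR, fan-in two); it should output 1 on unsatisfiable formulas and 0 on
satisfiable ones.
-/

namespace Pool.Agent.H51.MO

open Pool.Agent.H1.LP (Clause viol)
open Filter Topology

/-- Gate number `i` of a monotone circuit whose input is a set of clauses over `n` variables: a
constant, the input bit of a clause, or an AND or OR of two gates with smaller numbers. -/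
inductive Gate (n i : ℕ) where
  | cst (b : Bool) : Gate n i
  | inp (C : Clause n) : Gate n i
  | and (j l : Fin i) : Gate n i
  | or (j l : Fin i) : Gate n i

/-- The value of gate number `i` on the formula `F` (a set of clauses). -/
def val {n : ℕ} (g : (i : ℕ) → Gate n i) (F : Set (Clause n)) (i : ℕ) : Prop :=
  match g i with
  | .cst b => b = true
  | .inp C => C ∈ F
  | .and j l => val g F j.1 ∧ val g F l.1
  | .or j l => val g F j.1 ∨ val g F l.1
termination_by i
decreasing_by
  · exact j.2
  · exact l.2
  · exact j.2
  · exact l.2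

/-- The depth of gate number `i`. -/
def dep {n : ℕ} (g : (i : ℕ) → Gate n i) (i : ℕ) : ℕ :=
  match g i with
  | .cst _ => 0
  | .inp _ => 0
  | .and j l => max (dep g j.1) (dep g l.1) + 1
  | .or j l => max (dep g j.1) (dep g l.1) + 1
termination_by i
decreasing_by
  · exact j.2
  · exact l.2
  · exact j.2
  · exact l.2

/-- The number of paths from gate number `i` down to the inputs and constants, which is the number
of leaves of the formula obtained by unfolding the circuit. -/
def pth {n : ℕ} (g : (i : ℕ) → Gate n i) (i : ℕ) : ℕ :=
  match g i with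
  | .cst _ => 1
  | .inp _ => 1
  | .and j l => pth g j.1 + pth g l.1
  | .or j l => pth g j.1 + pth g l.1
termination_by i
decreasing_by
  · exact j.2
  · exact l.2
  · exact j.2
  · exact l.2

/-- A monotone circuit whose input is a set of clauses over `n` variables, with gates
`0, …, out` and output gate `out`. -/
structure Circuit (n : ℕ) where
  /-- the number of the output gate -/
  out : ℕ
  /-- the gates -/
  gate : (i : ℕ) → Gate n i

/-- the number of gates (inputs and constants included) -/
def Circuit.size {n : ℕ} (C : Circuit n) : ℕ := C.out + 1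

/-- the depth of the circuit -/
def Circuit.depth {n : ℕ} (C : Circuit n) : ℕ := dep C.gate C.out

/-- the number of paths from the output to the inputs; for a formula, its number of leaves -/
def Circuit.paths {n : ℕ} (C : Circuit n) : ℕ := pth C.gate C.out

/-- the circuit outputs 1 on the formula `phi` -/
def Acc {n m : ℕ} (C : Circuit n) (phi : Fin m → Clause n) : Prop :=
  val C.gate (Set.range phi) C.out

/-- The circuit outputs 0 on all satisfiable CNFs with at most `M` clauses, all of width exactly
`k`. -/
def Sound {n : ℕ} (C : Circuit n) (k M : ℕ) : Prop :=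
  ∀ (m : ℕ) (phi : Fin m → Clause n), m ≤ M →
    (∀ i, (phi i).card = k ∧ ((phi i).image Prod.fst).card = k) →
    (∃ x, ∀ i, (phi i).Sat x) → ¬ Acc C phi

open Classical in
/-- Monotone circuits with less than `2 ^ (c n)` paths, or with too small size and depth, do not
refute `k`-CNFs with `O(n)` clauses and with the gap `(1 - ε) / 2 ^ k`.  There are `K` and `γ > 0`
such that for all large `n` there is a finite list of CNFs with `n` variables, at most `K n`
clauses, all of width exactly `k`, every assignment violating at least `(1 - ε) m / 2 ^ k` of the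
`m` clauses, with the property: every monotone circuit which outputs 0 on all satisfiable
`k`-CNFs with at most `K n` clauses and 1 on more than a fraction `2 ^ (- γ n)` of the list has at
least `2 ^ (c n)` paths, and for every `t`, with `s` gates and depth `d`,
`s ^ (2 t) * 2 ^ (d / (t + 1)) ≥ 2 ^ (c n)` (`t = 0`: depth at least `c n`). -/
def HardM (k : ℕ) (ε c : ℝ) : Prop :=
  ∃ (K : ℕ) (γ : ℝ), 0 < γ ∧ ∃ n₀ : ℕ, ∀ n : ℕ, n₀ ≤ n →
    ∃ (Y : ℕ) (m : Fin Y → ℕ) (phi : (a : Fin Y) → Fin (m a) → Clause n), 0 < Y ∧
      (∀ a, 1 ≤ m a ∧ m a ≤ K * n ∧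
        (∀ i, (phi a i).card = k ∧ ((phi a i).image Prod.fst).card = k) ∧
        ∀ x, (1 - ε) * ((m a : ℝ) / 2 ^ k) ≤ (viol (phi a) x : ℝ)) ∧
      ∀ C : Circuit n, Sound C k (K * n) →
        (2 : ℝ) ^ (-(γ * n)) * Y <
          ((Finset.univ.filter (fun a => Acc C (phi a))).card : ℝ) →
        (2 : ℝ) ^ (c * n) ≤ C.paths ∧
          ∀ t : ℕ, (2 : ℝ) ^ (c * n) ≤
            (C.size : ℝ) ^ (2 * t) * (2 : ℝ) ^ ((C.depth : ℝ) / (t + 1))

/-- ETH and SETH for monotone circuits: for every gap `ε > 0` there are exponents `c k`, positive
for all `k ≥ 3` and tending to `1`, such that monotone circuits below the bounds `2 ^ (c k n)` of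
`HardM` do not refute `k`-CNFs with `n` variables and `O(n)` clauses in which every assignment
violates a fraction at least `(1 - ε) / 2 ^ k` of the clauses. -/
def StatementB : Prop :=
  ∀ ε : ℝ, 0 < ε → ∃ c : ℕ → ℝ, (∀ k, 3 ≤ k → 0 < c k) ∧ Tendsto c atTop (𝓝 1) ∧
    ∀ k, 3 ≤ k → HardM k ε (c k)

end Pool.Agent.H51.MO
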