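import Pool.Agent.H51.MO.Stmt

/-!
# Monotone circuits of any depth for k-SAT: the statement (helper51, MP_c62aed_lc)
-/

namespace Pool.Agent.H51.MO

open Pool.Agent.H1.LP (Clause viol)

open Classical in
/-- Monotone circuits with less than `2 ^ (n ^ α)` gates, of any depth, do not refute `k`-CNFs with
`O(n)` clauses and with the gap `(1 - ε) / 2 ^ k`.  There is `K` such that for all large `n` there
is a finite list of CNFs with `n` variables, at most `K n` clauses, all of width exactly `k`, every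
assignment violating at least `(1 - ε) m / 2 ^ k` of the `m` clauses, with the property: every
monotone circuit which outputs 0 on all satisfiable `k`-CNFs and 1 on more than a fraction
`2 ^ (- n ^ α)` of the list has at least `2 ^ (n ^ α)` gates. -/
def HardA (k : ℕ) (ε α : ℝ) : Prop :=
  ∃ (K : ℕ) (n₀ : ℕ), ∀ n : ℕ, n₀ ≤ n →
    ∃ (Y : ℕ) (m : Fin Y → ℕ) (phi : (a : Fin Y) → Fin (m a) → Clause n), 0 < Y ∧
      (∀ a, 1 ≤ m a ∧ m a ≤ K * n ∧
        (∀ i, (phi a i).card = k ∧ ((phi a i).image Prod.fst).card = k) ∧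
        ∀ x, (1 - ε) * ((m a : ℝ) / 2 ^ k) ≤ (viol (phi a) x : ℝ)) ∧
      ∀ C : Circuit n, (∀ M, Sound C k M) →
        (2 : ℝ) ^ (-((n : ℝ) ^ α)) * Y <
          ((Finset.univ.filter (fun a => Acc C (phi a))).card : ℝ) →
        (2 : ℝ) ^ ((n : ℝ) ^ α) ≤ C.size

/-- For every gap `ε > 0`, every fixed clause width `k ≥ 3` and every `α < (k - 2) / (k + 4)`:
monotone circuits with less than `2 ^ (n ^ α)` gates do not refute `k`-CNFs with `n` variables and
`O(n)` clauses in which every assignment violates a fraction `(1 - ε) / 2 ^ k` of the clauses. -/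
def StatementA : Prop :=
  ∀ (ε : ℝ) (k : ℕ) (α : ℝ), 0 < ε → 3 ≤ k → α < ((k : ℝ) - 2) / (k + 4) → HardA k ε α

end Pool.Agent.H51.MO
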