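import Pool.Agent.H96.KX.Targets2
import Pool.Agent.H51.MO.Stmt

/-!
# MP_c62aed_lc: monotone circuits for k-SAT, size and depth: targets (helper51)
-/

namespace Pool.Agent.H51.MO

open Finset
open Pool.Agent.H1.LP (Clause viol Loc Sys Agree supp ip kk)
open Pool.Agent.H96.KX

/-- upper bounds for the circuit: few paths, or `t + 1` phases of depth `p` -/
def Bd {n : ℕ} (C : Circuit n) (W : ℝ) : Prop :=
  (C.paths : ℝ) ≤ W ∨
    ∃ t p : ℕ, C.depth ≤ (t + 1) * p ∧ (2 * (C.size : ℝ) + 1) ^ (2 * t) * 2 ^ p ≤ W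

open Classical in
/-- the form in which the bounds are proved -/
def HardW (k : ℕ) (ε c : ℝ) : Prop :=
  ∃ (K : ℕ) (γ : ℝ), 0 < γ ∧ ∃ n₀ : ℕ, ∀ n : ℕ, n₀ ≤ n →
    ∃ (Y : ℕ) (m : Fin Y → ℕ) (phi : (a : Fin Y) → Fin (m a) → Clause n), 0 < Y ∧
      (∀ a, 1 ≤ m a ∧ m a ≤ K * n ∧
        (∀ i, (phi a i).card = k ∧ ((phi a i).image Prod.fst).card = k) ∧
        ∀ x, (1 - ε) * ((m a : ℝ) / 2 ^ k) ≤ (viol (phi a) x : ℝ)) ∧
      ∀ C : Circuit n, Sound C k (K * n) → Bd C ((2 : ℝ) ^ (c * n)) →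
        ((Finset.univ.filter (fun a => Acc C (phi a))).card : ℝ) ≤ (2 : ℝ) ^ (-(γ * n)) * Y

/-! ## the abstract inequality.  `Y` = formulas, `X` = points, `FY a` = the formula of `a`,
`FX x` = a satisfiable formula for `x`. -/

/-- MEQN: equations of `val`, `dep`, `pth` -/
def S_MEQN : Prop :=
  ∀ (n : ℕ) (g : (i : ℕ) → Gate n i) (i : ℕ),
    (∀ b, g i = .cst b → (∀ F, val g F i ↔ b = true) ∧ dep g i = 0 ∧ pth g i = 1) ∧
    (∀ C, g i = .inp C → (∀ F, val g F i ↔ C ∈ F) ∧ dep g i = 0 ∧ pth g i = 1) ∧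
    (∀ j l, g i = .and j l → (∀ F, val g F i ↔ val g F j.1 ∧ val g F l.1) ∧
      dep g i = max (dep g j.1) (dep g l.1) + 1 ∧ pth g i = pth g j.1 + pth g l.1) ∧
    (∀ j l, g i = .or j l → (∀ F, val g F i ↔ val g F j.1 ∨ val g F l.1) ∧
      dep g i = max (dep g j.1) (dep g l.1) + 1 ∧ pth g i = pth g j.1 + pth g l.1) ∧
    dep g i ≤ i ∧ pth g i ≤ 2 ^ dep g i

/-- MPATH: `S_MEQN → S_MPATH`, a rectangle separated by the gate `v` -/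
def S_MPATH : Prop :=
  ∀ (X Y : Type) [Fintype X] [Fintype Y] (n : ℕ) (K : Y → X → ℝ) (ka : ℝ)
    (FY : Y → Set (Clause n)) (FX : X → Set (Clause n)), 0 ≤ ka →
    (∀ (C : Clause n) (A : Finset Y) (B : Finset X), (∀ a ∈ A, C ∈ FY a) → (∀ x ∈ B, C ∉ FX x) →
      ∑ a ∈ A, ∑ x ∈ B, K a x ≤ ka * Real.sqrt ((A.card : ℝ) * B.card)) →
    ∀ (g : (i : ℕ) → Gate n i) (v : ℕ) (A : Finset Y) (B : Finset X),
      (∀ a ∈ A, val g (FY a) v) → (∀ x ∈ B, ¬ val g (FX x) v) →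
      ∑ a ∈ A, ∑ x ∈ B, K a x ≤ ka * Real.sqrt ((pth g v : ℝ) * ((A.card : ℝ) * B.card))

open Classical in
/-- MPHA: `S_MEQN → S_MPHA`, one phase.  The rectangle is cut at the gates of depth `≤ D`. -/
def S_MPHA : Prop :=
  ∀ (X Y : Type) [Fintype X] [Fintype Y] (n : ℕ) (K : Y → X → ℝ) (ka : ℝ)
    (FY : Y → Set (Clause n)) (FX : X → Set (Clause n)), 0 ≤ ka →
    (∀ (A : Finset Y) (B : Finset X),
      -(ka * Real.sqrt ((A.card : ℝ) * B.card)) ≤ ∑ a ∈ A, ∑ x ∈ B, K a x) →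
    (∀ (C : Clause n) (A : Finset Y) (B : Finset X), (∀ a ∈ A, C ∈ FY a) → (∀ x ∈ B, C ∉ FX x) →
      ∑ a ∈ A, ∑ x ∈ B, K a x ≤ ka * Real.sqrt ((A.card : ℝ) * B.card)) →
    ∀ (g : (i : ℕ) → Gate n i) (out D p v : ℕ) (A : Finset Y) (B : Finset X),
      v ≤ out → dep g v ≤ D + p →
      (∀ a ∈ A, val g (FY a) v) → (∀ x ∈ B, ¬ val g (FX x) v) →
      ∑ a ∈ A, ∑ x ∈ B, K a x ≤
        ∑ w ∈ (range (out + 1)).filter (fun w => dep g w ≤ D),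
          ∑ a ∈ A.filter (fun a => val g (FY a) w), ∑ x ∈ B.filter (fun x => ¬ val g (FX x) w),
            K a x +
        ((out : ℝ) + 2) * (ka * Real.sqrt (2 ^ p * ((A.card : ℝ) * B.card)))

/-- MABS: `S_MEQN → S_MPATH → S_MPHA → S_MABS`; `inF a C i` = the clause `C` belongs to the
equation `i` in the formula `a` -/
def S_MABS : Prop :=
  ∀ (X Y : Type) [Fintype X] [Fintype Y] (n R : ℕ) (K : Y → X → ℝ) (ka : ℝ)
    (FY : Y → Set (Clause n)) (FX : X → Set (Clause n)) (inF : Y → Clause n → Fin R → Prop),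
    1 ≤ R → 0 ≤ ka → (∀ a, ∑ x, K a x = Fintype.card X) →
    (∀ a, ∀ C ∈ FY a, ∃ i, inF a C i) →
    (∀ (A : Finset Y) (B : Finset X),
      -(ka * Real.sqrt ((A.card : ℝ) * B.card)) ≤ ∑ a ∈ A, ∑ x ∈ B, K a x) →
    (∀ (C : Clause n) (i : Fin R) (A : Finset Y) (B : Finset X),
      (∀ a ∈ A, C ∈ FY a ∧ inF a C i) → (∀ x ∈ B, C ∉ FX x) →
      ∑ a ∈ A, ∑ x ∈ B, K a x ≤ ka * Real.sqrt ((A.card : ℝ) * B.card)) →
    ∀ (Ci : Circuit n) (A : Finset Y) (W : ℝ), (∀ a ∈ A, val Ci.gate (FY a) Ci.out) →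
      (∀ x, ¬ val Ci.gate (FX x) Ci.out) → Bd Ci W →
      (A.card : ℝ) * Fintype.card X ≤ R * W * ka ^ 2

/-! ## the core inequalities -/

/-- MCORE: model `H96/KX/CORE.lean` with `S_MABS` in place of `S_ABS`.  The satisfiable formula of a
point `x` is the list of all clauses `cl (T q.1) q.2`, `q ∈ prs T`, satisfied by `asg x`. -/
def S_MCORE : Prop :=
  ∀ (E L n B : ℕ), 16 ≤ E → 2 ≤ L → 2 * kk E ≤ B → B * ((4 * E + 1) * (L + 1)) ≤ n →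
    ∃ (Y : ℕ) (m : Fin Y → ℕ) (phi : (a : Fin Y) → Fin (m a) → Clause n), 0 < Y ∧
      (∀ a, 1 ≤ m a ∧ m a ≤ 4 * E * B * 2 ^ ((4 * E + 1) * (L + 1) * kk E) ∧
        (∀ i, (phi a i).card = (4 * E + 1) * (L + 1) * kk E ∧
          ((phi a i).image Prod.fst).card = (4 * E + 1) * (L + 1) * kk E) ∧
        ∀ x, (1 - 1 / (E : ℝ)) * ((m a : ℝ) / 2 ^ ((4 * E + 1) * (L + 1) * kk E)) ≤
          (viol (phi a) x : ℝ)) ∧
      ∀ (C : Circuit n) (A : Finset (Fin Y)) (W : ℝ),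
        Sound C ((4 * E + 1) * (L + 1) * kk E)
          (4 * E * B * 2 ^ ((4 * E + 1) * (L + 1) * kk E)) →
        (∀ a ∈ A, Acc C (phi a)) → Bd C W →
        A.card * 2 ^ (4 * E * (L - 2) * (B - 8 * (B / E))) ≤
          (4 * E * B) * (2 ^ (4 * E + 1)) ^ (2 * B) * 4 ^ B * W * Y

/-- MCORE3: model `H96/KX/CORE3.lean` with `S_MABS` in place of `S_ABS` -/
def S_MCORE3 : Prop :=
  ∀ (B R t q n : ℕ) (ε : ℝ) (T : Fin R → Finset (Fin B)) (Ys : Sys 2 B R t (t / 3)),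
    1 ≤ R → 9 ≤ t → 4 ≤ q → B * q ≤ n → (∀ i, (T i).card = 3) →
    (∀ i j, Ys.A i j = if j ∈ T i then 1 else 0) →
    (∀ z : Fin B → ZMod 2, (1 - ε) * ((R : ℝ) / 2) ≤
      ((univ.filter (fun i => ip (Ys.A i) z ≠ Ys.be i)).card : ℝ)) →
    ∃ (Y : ℕ) (m : Fin Y → ℕ) (phi : (a : Fin Y) → Fin (m a) → Clause n), 0 < Y ∧
      (∀ a, 1 ≤ m a ∧ m a ≤ 4 * R ∧
        (∀ i, (phi a i).card = 3 ∧ ((phi a i).image Prod.fst).card = 3) ∧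
        ∀ x, (1 - ε) * ((m a : ℝ) / 2 ^ 3) ≤ (viol (phi a) x : ℝ)) ∧
      ∀ (C : Circuit n) (A : Finset (Fin Y)) (W : ℝ), Sound C 3 (R * (2 * q) ^ 3) →
        (∀ a ∈ A, Acc C (phi a)) → Bd C W →
        A.card * ((q : ℝ) / 4) ^ (t / 3 + 1) ≤ R * 16 ^ B * W * Y

/-! ## parameters and assembly -/

/-- MFIN: `S_MCORE → S_PARM → S_MFIN`, model `H96/KX/FIN.lean` -/
def S_MFIN : Prop := ∀ ε : ℝ, 0 < ε → ∃ k : ℕ, HardW k ε (1 - ε)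

/-- MFIN3: `S_X3 → S_MCORE3 → S_PARM3 → S_MFIN3` -/
def S_MFIN3 : Prop := ∀ ε : ℝ, 0 < ε → ∃ c : ℝ, 0 < c ∧ HardW 3 ε c

/-- MPAD: padding of the clauses, model `H78/KX/PAD.lean` -/
def S_MPAD : Prop :=
  ∀ (w k : ℕ) (ε c c' : ℝ), w ≤ k → c' < c → HardW w ε c → HardW k ε c'

/-- MCLN: `S_MEQN → S_MCLN`, all `t` -/
def S_MCLN : Prop :=
  ∀ (k : ℕ) (ε c c' : ℝ), 0 < c' → c' < c → HardW k ε c → HardM k ε c'

/-- MLIM: `S_MPAD → S_MCLN → S_MFIN → S_MFIN3 → StatementB`, model `H77/KX/LIM.lean` -/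
def S_MLIM : Prop := S_MPAD → S_MCLN → S_MFIN → S_MFIN3 → StatementB

end Pool.Agent.H51.MO
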