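import Pool.Agent.H51.MO.Stmt2
import Pool.Agent.H51.MO.TargetsB

/-!
# MP_c62aed_lc: monotone circuits of any depth for k-SAT: targets (helper51)

`b` = block length, `k` blocks; an equation is `s = (S, c)`: the product of the signs of the
variables `x l (S l)`, `l < k`, is the sign of `c`.
-/

namespace Pool.Agent.H51.MO

open Finset
open Pool.Agent.H1.LP (Clause viol)

/-- sign -/
def sg (c : Bool) : ℝ := if c then 1 else -1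

/-- points -/
abbrev Pt (k b : ℕ) : Type := Fin k → Fin b → Bool

/-- equations -/
abbrev Om (k b : ℕ) : Type := (Fin k → Fin b) × Bool

/-- `x` satisfies the equation `s` iff `ys s x = 1`; otherwise `ys s x = -1` -/
def ys {k b : ℕ} (s : Om k b) (x : Pt k b) : ℝ := sg s.2 * ∏ l, sg (x l (s.1 l))

/-- product over the equations in `J` -/
def yJ {k b m : ℕ} (F : Fin m → Om k b) (J : Finset (Fin m)) (x : Pt k b) : ℝ :=
  ∏ u ∈ J, ys (F u) x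

/-- all products over nonempty `J` outside `I` of size at most `w` have small averages on `A` -/
def Light {k b m : ℕ} (A : Finset (Pt k b)) (w : ℕ) (e : ℝ) (I : Finset (Fin m))
    (F : Fin m → Om k b) : Prop :=
  ∀ J : Finset (Fin m), Disjoint J I → J.Nonempty → J.card ≤ w →
    |∑ x ∈ A, yJ F J x| ≤ e ^ J.card * A.card

open Classical in
/-- the set `C` of formulas is dense outside `I` -/
def Dns {Om : Type} [Fintype Om] {m : ℕ} (β : ℝ) (I : Finset (Fin m))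
    (C : Finset (Fin m → Om)) : Prop :=
  ∀ J : Finset (Fin m), Disjoint J I → ∀ τ : Fin m → Om,
    ((C.filter (fun F => ∀ i ∈ J, F i = τ i)).card : ℝ) * (Fintype.card Om : ℝ) ^ J.card ≤
      β ^ J.card * C.card

open Classical in
/-- the class of `F`: the formulas of `Q` with the same index set which agree with `F` on it -/
noncomputable def cls {Om : Type} {m : ℕ} (I : (Fin m → Om) → Finset (Fin m))
    (Q : Finset (Fin m → Om)) (F : Fin m → Om) : Finset (Fin m → Om) :=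
  Q.filter (fun F' => I F' = I F ∧ ∀ i ∈ I F, F' i = F i)

/-! ## analysis -/

/-- MOM: moments of a random sum of signs -/
def S_AMOM : Prop :=
  ∀ b q : ℕ, ∑ x : Fin b → Bool, (∑ i, sg (x i)) ^ (2 * q) ≤ 2 ^ b * (8 * q * b : ℝ) ^ q

/-- HV: `S_AMOM → S_AHV`, second moment of the Fourier coefficients -/
def S_AHV : Prop :=
  ∀ (k b q j : ℕ) (A : Finset (Pt k b)), 1 ≤ k → 1 ≤ b → 1 ≤ j → k * j ≤ 2 * q →
    (2 : ℝ) ^ (k * b) ≤ 4 ^ q * A.card →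
    ∑ τ : Fin j → Om k b, (∑ x ∈ A, ∏ u, ys (τ u) x) ^ 2 ≤
      (2 * (b : ℝ) ^ k) ^ j * (A.card : ℝ) ^ 2 * Real.sqrt (128 * q / b) ^ (k * j)

open Classical in
/-- STEP: `S_AHV → S_ASTEP`, most formulas of a dense class are light -/
def S_ASTEP : Prop :=
  ∀ (k b m q w : ℕ) (β e : ℝ) (A : Finset (Pt k b)) (I : Finset (Fin m))
    (C : Finset (Fin m → Om k b)), 1 ≤ k → 1 ≤ b → k * w ≤ 2 * q →
    (2 : ℝ) ^ (k * b) ≤ 4 ^ q * A.card → 0 < β → 0 < e →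
    m * β * Real.sqrt (128 * q / b) ^ k ≤ e ^ 2 / 5 → Dns β I C →
    4 * (C.filter (fun F => ¬ Light A w e I F)).card ≤ C.card

/-- EXI: a light formula is satisfied on a small set by a point of `A` -/
def S_AEXI : Prop :=
  ∀ (k b m w : ℕ) (e : ℝ) (A : Finset (Pt k b)) (I I' : Finset (Fin m)) (F : Fin m → Om k b),
    A.Nonempty → 0 ≤ e → (1 + e) ^ w < 2 → Light A w e I F → Disjoint I' I → I'.card ≤ w →
    ∃ x ∈ A, ∀ u ∈ I', ys (F u) x = 1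

/-- IND: equations without short dependencies -/
def S_AIND : Prop :=
  ∀ (k b m w : ℕ) (e : ℝ) (I' : Finset (Fin m)) (F : Fin m → Om k b), 0 ≤ e → e < 1 →
    Light univ w e ∅ F → I'.card ≤ w →
    (univ.filter (fun x : Pt k b => ∀ u ∈ I', ys (F u) x = 1)).card * 2 ^ I'.card = 2 ^ (k * b)

open Classical in
/-- RES: density restoration -/
def S_ARES : Prop :=
  ∀ (Om : Type) [Fintype Om] [Nonempty Om] (m : ℕ) (β T : ℝ), 0 < β → 0 < T →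
    ∀ P : Finset (Fin m → Om), ∃ (E : Finset (Fin m → Om)) (I : (Fin m → Om) → Finset (Fin m)),
      E ⊆ P ∧ (E.card : ℝ) ≤ T ∧
      ∀ F ∈ P \ E, T * β ^ (I F).card ≤ (Fintype.card Om : ℝ) ^ m ∧
        Dns β (I F) (cls I (P \ E) F)

open Classical in
/-- CNT: the number of small partial assignments -/
def S_ACNT : Prop :=
  ∀ (Om : Type) [Fintype Om] (m w : ℕ),
    (univ.filter (fun ρ : Fin m → Option Om => (univ.filter (fun i => ρ i ≠ none)).card ≤ w)).card ≤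
      (1 + m * Fintype.card Om) ^ w

/-- SEL: `S_ASTEP → S_ASEL`, choice of the child -/
def S_ASEL : Prop :=
  ∀ (k b m q w : ℕ) (β e th : ℝ) (A A1 A2 : Finset (Pt k b)) (I : Finset (Fin m))
    (C P1 P2 : Finset (Fin m → Om k b)), 1 ≤ k → 1 ≤ b → k * w ≤ 2 * q →
    0 < th → (2 : ℝ) ^ (k * b) ≤ 4 ^ q * (th / 2) → 0 < β → 0 < e →
    m * β * Real.sqrt (128 * q / b) ^ k ≤ e ^ 2 / 5 → Dns β I C → C.Nonempty → th ≤ A.card →
    (∀ x ∈ A, ∀ F ∈ C, (x ∈ A1 ∧ F ∈ P1) ∨ (x ∈ A2 ∧ F ∈ P2)) →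
    (∃ A', A' ⊆ A ∧ A' ⊆ A1 ∧ A'.Nonempty ∧ ∃ F ∈ C, F ∈ P1 ∧ Light A' w e I F) ∨
    (∃ A', A' ⊆ A ∧ A' ⊆ A2 ∧ A'.Nonempty ∧ ∃ F ∈ C, F ∈ P2 ∧ Light A' w e I F)

/-! ## the main argument -/

/-- MAIN: `S_ARES → S_ACNT → S_ASEL → S_AEXI → S_AIND → S_AMAIN`.  Node `v` is the rectangle
`A v × P v`; it is covered by two smaller nodes, or all its points violate an equation `s` which
occurs in all its formulas. -/
def S_AMAIN : Prop :=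
  ∀ (k b m q w out : ℕ) (β e T th : ℝ) (A : ℕ → Finset (Pt k b))
    (P : ℕ → Finset (Fin m → Om k b)), 1 ≤ k → 1 ≤ b → k * w ≤ 2 * q →
    0 < th → (2 : ℝ) ^ (k * b) ≤ 4 ^ q * (th / 2) → 1 ≤ β → 0 < e → e < 1 → (1 + e) ^ w < 2 →
    m * β * Real.sqrt (128 * q / b) ^ k ≤ e ^ 2 / 5 → m * β < 2 * (b : ℝ) ^ k → 0 < T →
    (∀ j : ℕ, T * β ^ j ≤ (2 * (b : ℝ) ^ k) ^ m → j ≤ w) →
    (∀ v ≤ out, (∃ c < v, ∃ c' < v, ∀ x ∈ A v, ∀ F ∈ P v,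
        (x ∈ A c ∧ F ∈ P c) ∨ (x ∈ A c' ∧ F ∈ P c')) ∨
      ∃ s : Om k b, ∀ x ∈ A v, ∀ F ∈ P v, ys s x = -1 ∧ ∃ u, F u = s) →
    A out = univ → (∀ F ∈ P out, Light univ w e ∅ F) →
    ((P out).card : ℝ) ≤ (out + 1) * T ∨
      (2 : ℝ) ^ (k * b) ≤ 2 ^ w * ((out + 1) * ((1 + m * (2 * (b : ℝ) ^ k)) ^ w * th))

/-! ## formulas -/

open Classical in
/-- FAR: most formulas are far from satisfiable -/
def S_AFAR : Prop :=
  ∀ ε : ℝ, 0 < ε → ∃ K0 : ℕ, 1 ≤ K0 ∧ ∀ k b m : ℕ, 1 ≤ k → 1 ≤ b → K0 * (k * b) ≤ m →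
    4 * ((univ.filter (fun F : Fin m → Om k b => ∃ x : Pt k b,
      ((univ.filter (fun u => ys (F u) x = -1)).card : ℝ) < (1 - ε) * ((m : ℝ) / 2))).card : ℝ) ≤
      (2 * (b : ℝ) ^ k) ^ m

open Classical in
/-- ENC: the `k`-CNF of a system of equations; `U` = possible clauses -/
def S_AENC : Prop :=
  ∀ n k b m : ℕ, 1 ≤ k → k * b ≤ n →
    ∃ (asg : Pt k b → (Fin n → Bool)) (dec : (Fin n → Bool) → Pt k b) (U : Finset (Clause n))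
      (phi : (Fin m → Om k b) → Fin (m * 2 ^ (k - 1)) → Clause n),
      (∀ C ∈ U, C.card = k ∧ (C.image Prod.fst).card = k) ∧ (∀ F i, phi F i ∈ U) ∧
      (∀ C ∈ U, ∃ s : Om k b, (∀ x, ¬ C.Sat (asg x) → ys s x = -1) ∧
        ∀ F, C ∈ Set.range (phi F) → ∃ u, F u = s) ∧
      ∀ F z, viol (phi F) z = (univ.filter (fun u => ys (F u) (dec z) = -1)).card

open Classical in
/-- CORE: `S_AMAIN → S_ASTEP → S_AENC → S_MEQN → S_ACORE` -/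
def S_ACORE : Prop :=
  ∀ (n k b m q w : ℕ) (ε β e T th : ℝ), 1 ≤ k → 1 ≤ b → k * b ≤ n → 1 ≤ m → k * w ≤ 2 * q →
    0 < th → (2 : ℝ) ^ (k * b) ≤ 4 ^ q * (th / 2) → 1 ≤ β → 0 < e → e < 1 → (1 + e) ^ w < 2 →
    m * β * Real.sqrt (128 * q / b) ^ k ≤ e ^ 2 / 5 → m * β < 2 * (b : ℝ) ^ k → 0 < T →
    (∀ j : ℕ, T * β ^ j ≤ (2 * (b : ℝ) ^ k) ^ m → j ≤ w) →
    4 * ((univ.filter (fun F : Fin m → Om k b => ∃ x : Pt k b,
      ((univ.filter (fun u => ys (F u) x = -1)).card : ℝ) < (1 - ε) * ((m : ℝ) / 2))).card : ℝ) ≤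
      (2 * (b : ℝ) ^ k) ^ m →
    ∃ (Y : ℕ) (phi : Fin Y → Fin (m * 2 ^ (k - 1)) → Clause n),
      0 < Y ∧ (2 * (b : ℝ) ^ k) ^ m ≤ 2 * Y ∧
      (∀ a, (∀ i, (phi a i).card = k ∧ ((phi a i).image Prod.fst).card = k) ∧
        ∀ x, (1 - ε) * (((m * 2 ^ (k - 1) : ℕ) : ℝ) / 2 ^ k) ≤ (viol (phi a) x : ℝ)) ∧
      ∀ C : Circuit n, (∀ M, Sound C k M) →
        ((univ.filter (fun a => Acc C (phi a))).card : ℝ) ≤ C.size * T ∨
          (2 : ℝ) ^ (k * b) ≤ 2 ^ w * (C.size * ((1 + m * (2 * (b : ℝ) ^ k)) ^ w * th))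

/-- PAR: choice of the parameters, `m = K0 (k b)` -/
def S_APAR : Prop :=
  ∀ (k K0 : ℕ) (α : ℝ), 3 ≤ k → 1 ≤ K0 → 0 < α → α < ((k : ℝ) - 2) / (k + 4) →
    ∃ n₀ : ℕ, ∀ n : ℕ, n₀ ≤ n → ∃ (b q w m : ℕ) (β e T th : ℝ), m = K0 * (k * b) ∧ 1 ≤ b ∧
      k * b ≤ n ∧ k * w ≤ 2 * q ∧ 0 < th ∧ (2 : ℝ) ^ (k * b) ≤ 4 ^ q * (th / 2) ∧ 1 ≤ β ∧
      0 < e ∧ e < 1 ∧ (1 + e) ^ w < 2 ∧
      m * β * Real.sqrt (128 * q / b) ^ k ≤ e ^ 2 / 5 ∧ m * β < 2 * (b : ℝ) ^ k ∧ 0 < T ∧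
      (∀ j : ℕ, T * β ^ j ≤ (2 * (b : ℝ) ^ k) ^ m → j ≤ w) ∧
      2 * ((2 : ℝ) ^ ((n : ℝ) ^ α) * T) ≤
        (2 : ℝ) ^ (-((n : ℝ) ^ α)) * (2 * (b : ℝ) ^ k) ^ m ∧
      2 ^ w * ((2 : ℝ) ^ ((n : ℝ) ^ α) * ((1 + m * (2 * (b : ℝ) ^ k)) ^ w * th)) ≤
        (2 : ℝ) ^ (k * b)

/-- FIN: `S_ACORE → S_AFAR → S_APAR → StatementA` -/
def S_AFIN : Prop := S_ACORE → S_AFAR → S_APAR → StatementA

end Pool.Agent.H51.MO
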